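import Pool.Agent.RR59.Density
import Pool.Agent.RR59.Meagre

/-!
# Distributive forcing notions of size `ℵ₁` give Banach spaces without rotund renormings

`Incomp`, `Atomless`, `DenseOpen`, `OmegaDistributive` are in `Pool/Agent/RR59/Tree.lean`;
`EquivNorm`, `Rotund`, `HasDensity` are in `Pool/Agent/RR59/Analysis.lean`.
-/

open Set Cardinal

namespace Pool.Agent.Results.MP_e80c40_an.Distributive

open Pool.Agent.RR59

/-- **Theorem.**  If there is an atomless `ω`-distributive forcing notion of cardinality `ℵ₁`,
then there is a Banach space of density `ℵ₁` without rotund renorming. -/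
theorem result (P : Type) [PartialOrder P] (hP : #P = ℵ₁) (hat : Atomless P)
    (hdist : OmegaDistributive P) :
    ∃ (X : Type) (_ : NormedAddCommGroup X) (_ : NormedSpace ℝ X), CompleteSpace X ∧
      HasDensity X ℵ₁ ∧ ∀ N : X → ℝ, EquivNorm X N → ¬ Rotund N := by
  have hne : Nonempty P := mk_ne_zero_iff.1 (by rw [hP]; exact (aleph_pos 1).ne')
  obtain ⟨p⟩ : Nonempty (Om ≃ P) := Cardinal.eq.1 (by rw [mk_Om, hP])
  obtain ⟨c, hc1, hc2⟩ := exists_infinite_anti hat
  refine ⟨span (BTree (p : Om → P) c), inferInstance, inferInstance, inferInstance,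
    hasDensity _ (aleph0_le_aleph 1) (mk_btree _ _ hdist hP.le), ?_⟩
  exact space_not_rotund (btree_const _ _ hdist p.surjective) (btree_split _ _ hdist hc1 hc2)

end Pool.Agent.Results.MP_e80c40_an.Distributive
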