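import Pool.Agent.RR59.Density
import Pool.Agent.RR59.BigTree

/-!
# Small nonmeagre sets give small Banach spaces without rotund renormings

`EquivNorm`, `Rotund`, `HasDensity` are in `Pool/Agent/RR59/Analysis.lean`.
-/

open Set Cardinal

namespace Pool.Agent.Results.MP_e80c40_an.NonMeagre

open Pool.Agent.RR59

/-- **Theorem.**  Let `κ ≥ ℵ₁` be one of the cardinals `ℵ_n`, or such that `κ ^ ℵ₀ = κ`, and let
`A` be a nonmeagre subset of the Baire space with at most `κ` elements.  Then there is a Banach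
space of density `κ` which admits no rotund renorming. -/
theorem result (κ : Cardinal.{0}) (h1 : ℵ₁ ≤ κ) (h2 : (∃ n : ℕ, κ = ℵ_ n) ∨ κ ^ ℵ₀ = κ)
    (A : Set (ℕ → ℕ)) (hA : ¬ IsMeagre A) (hAκ : #A ≤ κ) :
    ∃ (X : Type) (_ : NormedAddCommGroup X) (_ : NormedSpace ℝ X), CompleteSpace X ∧
      HasDensity X κ ∧ ∀ N : X → ℝ, EquivNorm X N → ¬ Rotund N := by
  have h0 : ℵ₀ ≤ κ := (aleph0_le_aleph 1).trans h1
  obtain ⟨K, hK⟩ : ∃ K : Type, #K = κ := ⟨κ.out, mk_out κ⟩
  have hOK : #(Om × K) = κ := by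
    rw [mk_prod, lift_id, lift_id, mk_Om, hK]
    exact mul_eq_right h0 h1 (aleph_pos 1).ne'
  have hst : Stat (Om × K) := by
    rcases h2 with ⟨n, hn⟩ | h2
    · exact stat_aleph n _ (by rw [hOK, hn])
    · exact stat_of_power (by rw [hOK, h2])
  obtain ⟨I, g, hI, hg⟩ := hst
  rw [hOK] at hI
  have hne : Nonempty K := mk_ne_zero_iff.1 (by
    rw [hK]
    exact (aleph0_pos.trans_le h0).ne')
  have hOm : Nonempty Om := mk_ne_zero_iff.1 (by rw [mk_Om]; exact (aleph_pos 1).ne')
  have hC : #(((Om × K) × ℕ) ⊕ (I × (Om × K) × A)) ≤ #K := by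
    have e1 : #((Om × K) × ℕ) ≤ κ := by
      rw [mk_prod, lift_id, lift_id, hOK, mk_nat]
      exact (mul_le_mul' le_rfl h0).trans (mul_eq_self h0).le
    have e2 : #((Om × K) × A) ≤ κ := by
      rw [mk_prod, lift_id, lift_id, hOK]
      exact (mul_le_mul' le_rfl hAκ).trans (mul_eq_self h0).le
    have e3 : #(I × (Om × K) × A) ≤ κ := by
      rw [mk_prod, lift_id, lift_id]
      exact (mul_le_mul' hI e2).trans (mul_eq_self h0).le
    rw [mk_sum, lift_id, lift_id, hK]
    exact (add_le_add e1 e3).trans (add_eq_self h0).le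
  obtain ⟨j⟩ := hC
  have : Nonempty (((Om × K) × ℕ) ⊕ (I × (Om × K) × A)) :=
    ⟨Sum.inl ((Classical.arbitrary Om, Classical.arbitrary K), 0)⟩
  have he := Function.invFun_surjective j.injective
  refine ⟨span (Big.Nd g (Function.invFun j)), inferInstance, inferInstance, inferInstance,
    hasDensity _ h0 hOK, ?_⟩
  exact space_not_rotund (Big.nd_const g _ he hg hA) (Big.nd_split g _ he)

end Pool.Agent.Results.MP_e80c40_an.NonMeagre
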