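import Pool.Agent.KW4.Kurepa

/-!
# Trees with many branches give small Banach spaces without rotund renormings

`EquivNorm`, `Rotund`, `HasDensity` are in `Pool/Agent/RR59/Analysis.lean`.
-/

open Set Cardinal

namespace Pool.Agent.Results.MP_e80c40_an.WeakKurepa

open Pool.Agent.RR59

/-- **Theorem.**  Let `κ` be an infinite cardinal and `T` a partially ordered set with at most `κ`
elements in which the predecessors of each element form a chain.  If `T` has more than `κ` maximal
chains in which every countable subset has an upper bound, then there is a Banach space of density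
`κ` which admits no rotund renorming. -/
theorem result (κ : Cardinal.{0}) (hκ : ℵ₀ ≤ κ) (T : Type) [PartialOrder T]
    (hT : ∀ t : T, IsChain (· ≤ ·) (Iic t)) (hTκ : #T ≤ κ)
    (hB : κ < #{B : Set T // IsMaxChain (· ≤ ·) B ∧
      ∀ C ⊆ B, C.Countable → ∃ b ∈ B, ∀ c ∈ C, c ≤ b}) :
    ∃ (X : Type) (_ : NormedAddCommGroup X) (_ : NormedSpace ℝ X), CompleteSpace X ∧
      HasDensity X κ ∧ ∀ N : X → ℝ, EquivNorm X N → ¬ Rotund N :=
  KW4.main κ hκ T hT hTκ hB

end Pool.Agent.Results.MP_e80c40_an.WeakKurepa
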